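import Mathlib

/-!
A symmetric random walk polynomial sequence with `c 1 = 3/7`, `c 2 = 3/4`, `c n = 1/21` for odd
`n ≥ 3` and `c n = 10/11` for even `n ≥ 4`: basic recurrences and explicit products.
-/

set_option autoImplicit false

open Polynomial

namespace Pool.Agent.Work.MP_5c86b6_an

/-- The coefficients `c n` (with the convention `c 0 = 0`). -/
noncomputable def c (n : ℕ) : ℝ :=
  if n = 0 then 0 else if n = 1 then 3 / 7 else if n = 2 then 3 / 4
  else if n % 2 = 1 then 1 / 21 else 10 / 11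

/-- The coefficients `a n`. -/
noncomputable def a (n : ℕ) : ℝ := 1 - c n

lemma c_nonneg (n : ℕ) : 0 ≤ c n := by unfold c; split_ifs <;> norm_num

lemma c_pos (n : ℕ) (hn : 1 ≤ n) : 0 < c n := by
  unfold c; split_ifs <;> first | omega | norm_num

lemma a_pos (n : ℕ) : 0 < a n := by unfold a c; split_ifs <;> norm_num

/-- The polynomials. -/
noncomputable def P : ℕ → ℝ[X]
  | 0 => 1
  | 1 => X
  | (n + 2) => C (1 / a (n + 1)) * (X * P (n + 1) - C (c (n + 1)) * P n)

/-- The polynomial functions. -/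
noncomputable def p (k : ℕ) (x : ℝ) : ℝ := (P k).eval x

lemma p0_eq (x : ℝ) : p 0 x = 1 := by simp [p, P]

lemma p1_eq (x : ℝ) : p 1 x = x := by simp [p, P]

lemma rec_gen (k : ℕ) (x : ℝ) :
    x * p (k + 1) x = a (k + 1) * p (k + 2) x + c (k + 1) * p k x := by
  have h := (a_pos (k + 1)).ne'
  simp only [p, P, eval_mul, eval_C, eval_sub, eval_X]
  field_simp
  ring

lemma rec1 (x : ℝ) : x * p 1 x = 4 / 7 * p 2 x + 3 / 7 * p 0 x := by
  have := rec_gen 0 x
  norm_num [a, c] at this ⊢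
  linarith

lemma rec2 (x : ℝ) : x * p 2 x = 1 / 4 * p 3 x + 3 / 4 * p 1 x := by
  have := rec_gen 1 x
  norm_num [a, c] at this ⊢
  linarith

lemma recE (k : ℕ) (h1 : k % 2 = 1) (h2 : 2 ≤ k) (x : ℝ) :
    x * p (k + 1) x = 1 / 11 * p (k + 2) x + 10 / 11 * p k x := by
  have hc : c (k + 1) = 10 / 11 := by
    unfold c; split_ifs <;> first | contradiction | omega | rfl
  rw [rec_gen, a, hc]; ring

lemma recO (k : ℕ) (h1 : k % 2 = 0) (h2 : 2 ≤ k) (x : ℝ) :
    x * p (k + 1) x = 20 / 21 * p (k + 2) x + 1 / 21 * p k x := by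
  have hc : c (k + 1) = 1 / 21 := by
    unfold c; split_ifs <;> first | contradiction | omega | rfl
  rw [rec_gen, a, hc]; ring

lemma p2_eq (x : ℝ) : p 2 x = 7 / 4 * x ^ 2 - 3 / 4 := by
  linear_combination (-7 / 4) * rec1 x + (7 / 4 * x) * p1_eq x - 3 / 4 * p0_eq x

lemma p3_eq (x : ℝ) : p 3 x = 7 * x ^ 3 - 6 * x := by
  linear_combination (-4) * rec2 x + (4 * x) * p2_eq x - 3 * p1_eq x

lemma p4_eq (x : ℝ) : p 4 x = 147 / 20 * x ^ 4 - 511 / 80 * x ^ 2 + 3 / 80 := by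
  have h : x * p 3 x = 20 / 21 * p 4 x + 1 / 21 * p 2 x := recO 2 (by omega) (by omega) x
  linear_combination (-21 / 20) * h + (21 / 20 * x) * p3_eq x - 1 / 20 * p2_eq x

lemma p5_eq (x : ℝ) : p 5 x = 1617 / 20 * x ^ 5 - 11221 / 80 * x ^ 3 + 4833 / 80 * x := by
  have h : x * p 4 x = 1 / 11 * p 5 x + 10 / 11 * p 3 x := recE 3 (by omega) (by omega) x
  linear_combination (-11) * h + (11 * x) * p4_eq x - 10 * p3_eq x

/-- The two step recurrence, with constant coefficients from index `4` on. -/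
lemma rec_two (k : ℕ) (hk : 2 ≤ k) (x : ℝ) :
    x ^ 2 * p (k + 2) x =
      20 / 231 * p (k + 4) x + 201 / 231 * p (k + 2) x + 10 / 231 * p k x := by
  rcases Nat.mod_two_eq_zero_or_one k with h | h
  · have h1 : x * p (k + 1) x = 20 / 21 * p (k + 2) x + 1 / 21 * p k x := recO k h hk x
    have h2 : x * p (k + 2) x = 1 / 11 * p (k + 3) x + 10 / 11 * p (k + 1) x :=
      recE (k + 1) (by omega) (by omega) x
    have h3 : x * p (k + 3) x = 20 / 21 * p (k + 4) x + 1 / 21 * p (k + 2) x :=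
      recO (k + 2) (by omega) (by omega) x
    linear_combination x * h2 + 1 / 11 * h3 + 10 / 11 * h1
  · have h1 : x * p (k + 1) x = 1 / 11 * p (k + 2) x + 10 / 11 * p k x := recE k h hk x
    have h2 : x * p (k + 2) x = 20 / 21 * p (k + 3) x + 1 / 21 * p (k + 1) x :=
      recO (k + 1) (by omega) (by omega) x
    have h3 : x * p (k + 3) x = 1 / 11 * p (k + 4) x + 10 / 11 * p (k + 2) x :=
      recE (k + 2) (by omega) (by omega) x
    linear_combination x * h2 + 20 / 21 * h3 + 1 / 21 * h1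

lemma prod2_0 (x : ℝ) :
    p 2 x * p 2 x =
      (9/16) * p 0 x + (1/48) * p 2 x + (5/12) * p 4 x := by
  have h1 : x * p 1 x = (4/7) * p 2 x + (3/7) * p 0 x := rec1 x
  have h2 : x * p 2 x = (1/4) * p 3 x + (3/4) * p 1 x := rec2 x
  have h3 : x * p 3 x = (20/21) * p 4 x + (1/21) * p 2 x := recO 2 (by omega) (by omega) x
  have e := p2_eq x
  linear_combination p 2 x * e + ((21/16) * x ^ 0) * h1 + ((7/4) * x ^ 1) * h2 + ((7/16) * x ^ 0) * h3

lemma prod2_1 (x : ℝ) :
    p 2 x * p 3 x =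
      (1/16) * p 1 x + (415/528) * p 3 x + (5/33) * p 5 x := by
  have h2 : x * p 2 x = (1/4) * p 3 x + (3/4) * p 1 x := rec2 x
  have h3 : x * p 3 x = (20/21) * p 4 x + (1/21) * p 2 x := recO 2 (by omega) (by omega) x
  have h4 : x * p 4 x = (1/11) * p 5 x + (10/11) * p 3 x := recE 3 (by omega) (by omega) x
  have e := p2_eq x
  linear_combination p 3 x * e + ((1/12) * x ^ 0) * h2 + ((7/4) * x ^ 1) * h3 + ((5/3) * x ^ 0) * h4

lemma prod2_E (t : ℕ) (h2 : 2 ≤ t) (ht : t % 2 = 0) (x : ℝ) :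
    p 2 x * p (t + 2) x =
      (5/66) * p t x + (17/22) * p (t + 2) x + (5/33) * p (t + 4) x := by
  have h1 : x * p (t + 1) x = (20/21) * p (t + 2) x + (1/21) * p t x := recO t (by omega) (by omega) x
  have h2 : x * p (t + 2) x = (1/11) * p (t + 3) x + (10/11) * p (t + 1) x := recE (t + 1) (by omega) (by omega) x
  have h3 : x * p (t + 3) x = (20/21) * p (t + 4) x + (1/21) * p (t + 2) x := recO (t + 2) (by omega) (by omega) x
  have e := p2_eq x
  linear_combination p (t + 2) x * e + ((35/22) * x ^ 0) * h1 + ((7/4) * x ^ 1) * h2 + ((7/44) * x ^ 0) * h3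

lemma prod2_O (t : ℕ) (h2 : 2 ≤ t) (ht : t % 2 = 1) (x : ℝ) :
    p 2 x * p (t + 2) x =
      (5/66) * p t x + (17/22) * p (t + 2) x + (5/33) * p (t + 4) x := by
  have h1 : x * p (t + 1) x = (1/11) * p (t + 2) x + (10/11) * p t x := recE t (by omega) (by omega) x
  have h2 : x * p (t + 2) x = (20/21) * p (t + 3) x + (1/21) * p (t + 1) x := recO (t + 1) (by omega) (by omega) x
  have h3 : x * p (t + 3) x = (1/11) * p (t + 4) x + (10/11) * p (t + 2) x := recE (t + 2) (by omega) (by omega) x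
  have e := p2_eq x
  linear_combination p (t + 2) x * e + ((1/12) * x ^ 0) * h1 + ((7/4) * x ^ 1) * h2 + ((5/3) * x ^ 0) * h3

lemma prod3_0 (x : ℝ) :
    p 3 x * p 3 x =
      (3/28) * p 0 x + (415/2772) * p 2 x + (115/693) * p 4 x + (400/693) * p 6 x := by
  have h1 : x * p 1 x = (4/7) * p 2 x + (3/7) * p 0 x := rec1 x
  have h2 : x * p 2 x = (1/4) * p 3 x + (3/4) * p 1 x := rec2 x
  have h3 : x * p 3 x = (20/21) * p 4 x + (1/21) * p 2 x := recO 2 (by omega) (by omega) x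
  have h4 : x * p 4 x = (1/11) * p 5 x + (10/11) * p 3 x := recE 3 (by omega) (by omega) x
  have h5 : x * p 5 x = (20/21) * p 6 x + (1/21) * p 4 x := recO 4 (by omega) (by omega) x
  have e := p3_eq x
  linear_combination p 3 x * e + ((1/4) * x ^ 0) * h1 + ((1/3) * x ^ 1) * h2 + ((19/132) * x ^ 0 + (7) * x ^ 2) * h3 + ((20/3) * x ^ 1) * h4 + ((20/33) * x ^ 0) * h5

lemma prod3_1 (x : ℝ) :
    p 3 x * p 4 x =
      (5/22) * p 1 x + (115/726) * p 3 x + (203/363) * p 5 x + (20/363) * p 7 x := by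
  have h2 : x * p 2 x = (1/4) * p 3 x + (3/4) * p 1 x := rec2 x
  have h3 : x * p 3 x = (20/21) * p 4 x + (1/21) * p 2 x := recO 2 (by omega) (by omega) x
  have h4 : x * p 4 x = (1/11) * p 5 x + (10/11) * p 3 x := recE 3 (by omega) (by omega) x
  have h5 : x * p 5 x = (20/21) * p 6 x + (1/21) * p 4 x := recO 4 (by omega) (by omega) x
  have h6 : x * p 6 x = (1/11) * p 7 x + (10/11) * p 5 x := recE 5 (by omega) (by omega) x
  have e := p3_eq x
  linear_combination p 4 x * e + ((10/33) * x ^ 0) * h2 + ((70/11) * x ^ 1) * h3 + ((1/11) * x ^ 0 + (7) * x ^ 2) * h4 + ((7/11) * x ^ 1) * h5 + ((20/33) * x ^ 0) * h6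

lemma prod3_E (t : ℕ) (h2 : 2 ≤ t) (ht : t % 2 = 0) (x : ℝ) :
    p 3 x * p (t + 3) x =
      (10/693) * p t x + (29/99) * p (t + 2) x + (80/693) * p (t + 4) x + (400/693) * p (t + 6) x := by
  have h1 : x * p (t + 1) x = (20/21) * p (t + 2) x + (1/21) * p t x := recO t (by omega) (by omega) x
  have h2 : x * p (t + 2) x = (1/11) * p (t + 3) x + (10/11) * p (t + 1) x := recE (t + 1) (by omega) (by omega) x
  have h3 : x * p (t + 3) x = (20/21) * p (t + 4) x + (1/21) * p (t + 2) x := recO (t + 2) (by omega) (by omega) x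
  have h4 : x * p (t + 4) x = (1/11) * p (t + 5) x + (10/11) * p (t + 3) x := recE (t + 3) (by omega) (by omega) x
  have h5 : x * p (t + 5) x = (20/21) * p (t + 6) x + (1/21) * p (t + 4) x := recO (t + 4) (by omega) (by omega) x
  have e := p3_eq x
  linear_combination p (t + 3) x * e + ((10/33) * x ^ 0) * h1 + ((1/3) * x ^ 1) * h2 + ((1/11) * x ^ 0 + (7) * x ^ 2) * h3 + ((20/3) * x ^ 1) * h4 + ((20/33) * x ^ 0) * h5

lemma prod3_O (t : ℕ) (h2 : 2 ≤ t) (ht : t % 2 = 1) (x : ℝ) :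
    p 3 x * p (t + 3) x =
      (100/363) * p t x + (40/363) * p (t + 2) x + (203/363) * p (t + 4) x + (20/363) * p (t + 6) x := by
  have h1 : x * p (t + 1) x = (1/11) * p (t + 2) x + (10/11) * p t x := recE t (by omega) (by omega) x
  have h2 : x * p (t + 2) x = (20/21) * p (t + 3) x + (1/21) * p (t + 1) x := recO (t + 1) (by omega) (by omega) x
  have h3 : x * p (t + 3) x = (1/11) * p (t + 4) x + (10/11) * p (t + 2) x := recE (t + 2) (by omega) (by omega) x
  have h4 : x * p (t + 4) x = (20/21) * p (t + 5) x + (1/21) * p (t + 3) x := recO (t + 3) (by omega) (by omega) x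
  have h5 : x * p (t + 5) x = (1/11) * p (t + 6) x + (10/11) * p (t + 4) x := recE (t + 4) (by omega) (by omega) x
  have e := p3_eq x
  linear_combination p (t + 3) x * e + ((10/33) * x ^ 0) * h1 + ((70/11) * x ^ 1) * h2 + ((1/11) * x ^ 0 + (7) * x ^ 2) * h3 + ((7/11) * x ^ 1) * h4 + ((20/33) * x ^ 0) * h5

lemma prod4_0 (x : ℝ) :
    p 4 x * p 4 x =
      (9/88) * p 0 x + (17/121) * p 2 x + (13/88) * p 4 x + (805/1452) * p 6 x + (20/363) * p 8 x := by
  have h1 : x * p 1 x = (4/7) * p 2 x + (3/7) * p 0 x := rec1 x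
  have h2 : x * p 2 x = (1/4) * p 3 x + (3/4) * p 1 x := rec2 x
  have h3 : x * p 3 x = (20/21) * p 4 x + (1/21) * p 2 x := recO 2 (by omega) (by omega) x
  have h4 : x * p 4 x = (1/11) * p 5 x + (10/11) * p 3 x := recE 3 (by omega) (by omega) x
  have h5 : x * p 5 x = (20/21) * p 6 x + (1/21) * p 4 x := recO 4 (by omega) (by omega) x
  have h6 : x * p 6 x = (1/11) * p 7 x + (10/11) * p 5 x := recE 5 (by omega) (by omega) x
  have h7 : x * p 7 x = (20/21) * p 8 x + (1/21) * p 6 x := recO 6 (by omega) (by omega) x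
  have e := p4_eq x
  linear_combination p 4 x * e + ((21/88) * x ^ 0) * h1 + ((7/22) * x ^ 1) * h2 + ((21/242) * x ^ 0 + (147/22) * x ^ 2) * h3 + ((7/880) * x ^ 1 + (147/20) * x ^ 3) * h4 + ((5607/9680) * x ^ 0 + (147/220) * x ^ 2) * h5 + ((7/11) * x ^ 1) * h6 + ((7/121) * x ^ 0) * h7

lemma prod4_1 (x : ℝ) :
    p 4 x * p 5 x =
      (1/88) * p 1 x + (203/726) * p 3 x + (289/2904) * p 5 x + (805/1452) * p 7 x + (20/363) * p 9 x := by
  have h2 : x * p 2 x = (1/4) * p 3 x + (3/4) * p 1 x := rec2 x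
  have h3 : x * p 3 x = (20/21) * p 4 x + (1/21) * p 2 x := recO 2 (by omega) (by omega) x
  have h4 : x * p 4 x = (1/11) * p 5 x + (10/11) * p 3 x := recE 3 (by omega) (by omega) x
  have h5 : x * p 5 x = (20/21) * p 6 x + (1/21) * p 4 x := recO 4 (by omega) (by omega) x
  have h6 : x * p 6 x = (1/11) * p 7 x + (10/11) * p 5 x := recE 5 (by omega) (by omega) x
  have h7 : x * p 7 x = (20/21) * p 8 x + (1/21) * p 6 x := recO 6 (by omega) (by omega) x
  have h8 : x * p 8 x = (1/11) * p 9 x + (10/11) * p 7 x := recE 7 (by omega) (by omega) x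
  have e := p4_eq x
  linear_combination p 5 x * e + ((1/66) * x ^ 0) * h2 + ((7/22) * x ^ 1) * h3 + ((267/880) * x ^ 0 + (7/20) * x ^ 2) * h4 + ((7/880) * x ^ 1 + (147/20) * x ^ 3) * h5 + ((5/132) * x ^ 0 + (7) * x ^ 2) * h6 + ((7/11) * x ^ 1) * h7 + ((20/33) * x ^ 0) * h8

lemma prod4_E (t : ℕ) (h2 : 2 ≤ t) (ht : t % 2 = 0) (x : ℝ) :
    p 4 x * p (t + 4) x =
      (5/363) * p t x + (805/2904) * p (t + 2) x + (289/2904) * p (t + 4) x + (805/1452) * p (t + 6) x + (20/363) * p (t + 8) x := by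
  have h1 : x * p (t + 1) x = (20/21) * p (t + 2) x + (1/21) * p t x := recO t (by omega) (by omega) x
  have h2 : x * p (t + 2) x = (1/11) * p (t + 3) x + (10/11) * p (t + 1) x := recE (t + 1) (by omega) (by omega) x
  have h3 : x * p (t + 3) x = (20/21) * p (t + 4) x + (1/21) * p (t + 2) x := recO (t + 2) (by omega) (by omega) x
  have h4 : x * p (t + 4) x = (1/11) * p (t + 5) x + (10/11) * p (t + 3) x := recE (t + 3) (by omega) (by omega) x
  have h5 : x * p (t + 5) x = (20/21) * p (t + 6) x + (1/21) * p (t + 4) x := recO (t + 4) (by omega) (by omega) x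
  have h6 : x * p (t + 6) x = (1/11) * p (t + 7) x + (10/11) * p (t + 5) x := recE (t + 5) (by omega) (by omega) x
  have h7 : x * p (t + 7) x = (20/21) * p (t + 8) x + (1/21) * p (t + 6) x := recO (t + 6) (by omega) (by omega) x
  have e := p4_eq x
  linear_combination p (t + 4) x * e + ((35/121) * x ^ 0) * h1 + ((7/22) * x ^ 1) * h2 + ((35/968) * x ^ 0 + (147/22) * x ^ 2) * h3 + ((7/880) * x ^ 1 + (147/20) * x ^ 3) * h4 + ((5607/9680) * x ^ 0 + (147/220) * x ^ 2) * h5 + ((7/11) * x ^ 1) * h6 + ((7/121) * x ^ 0) * h7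

lemma prod4_O (t : ℕ) (h2 : 2 ≤ t) (ht : t % 2 = 1) (x : ℝ) :
    p 4 x * p (t + 4) x =
      (5/363) * p t x + (805/2904) * p (t + 2) x + (289/2904) * p (t + 4) x + (805/1452) * p (t + 6) x + (20/363) * p (t + 8) x := by
  have h1 : x * p (t + 1) x = (1/11) * p (t + 2) x + (10/11) * p t x := recE t (by omega) (by omega) x
  have h2 : x * p (t + 2) x = (20/21) * p (t + 3) x + (1/21) * p (t + 1) x := recO (t + 1) (by omega) (by omega) x
  have h3 : x * p (t + 3) x = (1/11) * p (t + 4) x + (10/11) * p (t + 2) x := recE (t + 2) (by omega) (by omega) x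
  have h4 : x * p (t + 4) x = (20/21) * p (t + 5) x + (1/21) * p (t + 3) x := recO (t + 3) (by omega) (by omega) x
  have h5 : x * p (t + 5) x = (1/11) * p (t + 6) x + (10/11) * p (t + 4) x := recE (t + 4) (by omega) (by omega) x
  have h6 : x * p (t + 6) x = (20/21) * p (t + 7) x + (1/21) * p (t + 5) x := recO (t + 5) (by omega) (by omega) x
  have h7 : x * p (t + 7) x = (1/11) * p (t + 8) x + (10/11) * p (t + 6) x := recE (t + 6) (by omega) (by omega) x
  have e := p4_eq x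
  linear_combination p (t + 4) x * e + ((1/66) * x ^ 0) * h1 + ((7/22) * x ^ 1) * h2 + ((267/880) * x ^ 0 + (7/20) * x ^ 2) * h3 + ((7/880) * x ^ 1 + (147/20) * x ^ 3) * h4 + ((5/132) * x ^ 0 + (7) * x ^ 2) * h5 + ((7/11) * x ^ 1) * h6 + ((20/33) * x ^ 0) * h7

lemma prod5_0 (x : ℝ) :
    p 5 x * p 5 x =
      (3/56) * p 0 x + (17/231) * p 2 x + (289/5544) * p 4 x + (5/28) * p 6 x + (5/77) * p 8 x + (400/693) * p 10 x := by
  have h1 : x * p 1 x = (4/7) * p 2 x + (3/7) * p 0 x := rec1 x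
  have h2 : x * p 2 x = (1/4) * p 3 x + (3/4) * p 1 x := rec2 x
  have h3 : x * p 3 x = (20/21) * p 4 x + (1/21) * p 2 x := recO 2 (by omega) (by omega) x
  have h4 : x * p 4 x = (1/11) * p 5 x + (10/11) * p 3 x := recE 3 (by omega) (by omega) x
  have h5 : x * p 5 x = (20/21) * p 6 x + (1/21) * p 4 x := recO 4 (by omega) (by omega) x
  have h6 : x * p 6 x = (1/11) * p 7 x + (10/11) * p 5 x := recE 5 (by omega) (by omega) x
  have h7 : x * p 7 x = (20/21) * p 8 x + (1/21) * p 6 x := recO 6 (by omega) (by omega) x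
  have h8 : x * p 8 x = (1/11) * p 9 x + (10/11) * p 7 x := recE 7 (by omega) (by omega) x
  have h9 : x * p 9 x = (20/21) * p 10 x + (1/21) * p 8 x := recO 8 (by omega) (by omega) x
  have e := p5_eq x
  linear_combination p 5 x * e + ((1/8) * x ^ 0) * h1 + ((1/6) * x ^ 1) * h2 + ((1/22) * x ^ 0 + (7/2) * x ^ 2) * h3 + ((1/240) * x ^ 1 + (77/20) * x ^ 3) * h4 + ((49/264) * x ^ 0 + (-5593/80) * x ^ 2 + (1617/20) * x ^ 4) * h5 + ((-265/4) * x ^ 1 + (77) * x ^ 3) * h6 + ((5/132) * x ^ 0 + (7) * x ^ 2) * h7 + ((20/3) * x ^ 1) * h8 + ((20/33) * x ^ 0) * h9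

lemma prod5_1 (x : ℝ) :
    p 5 x * p 6 x =
      (5/44) * p 1 x + (20/363) * p 3 x + (15/88) * p 5 x + (149/2904) * p 7 x + (805/1452) * p 9 x + (20/363) * p 11 x := by
  have h2 : x * p 2 x = (1/4) * p 3 x + (3/4) * p 1 x := rec2 x
  have h3 : x * p 3 x = (20/21) * p 4 x + (1/21) * p 2 x := recO 2 (by omega) (by omega) x
  have h4 : x * p 4 x = (1/11) * p 5 x + (10/11) * p 3 x := recE 3 (by omega) (by omega) x
  have h5 : x * p 5 x = (20/21) * p 6 x + (1/21) * p 4 x := recO 4 (by omega) (by omega) x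
  have h6 : x * p 6 x = (1/11) * p 7 x + (10/11) * p 5 x := recE 5 (by omega) (by omega) x
  have h7 : x * p 7 x = (20/21) * p 8 x + (1/21) * p 6 x := recO 6 (by omega) (by omega) x
  have h8 : x * p 8 x = (1/11) * p 9 x + (10/11) * p 7 x := recE 7 (by omega) (by omega) x
  have h9 : x * p 9 x = (20/21) * p 10 x + (1/21) * p 8 x := recO 8 (by omega) (by omega) x
  have h10 : x * p 10 x = (1/11) * p 11 x + (10/11) * p 9 x := recE 9 (by omega) (by omega) x
  have e := p5_eq x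
  linear_combination p 6 x * e + ((5/33) * x ^ 0) * h2 + ((35/11) * x ^ 1) * h3 + ((5/264) * x ^ 0 + (7/2) * x ^ 2) * h4 + ((-5565/88) * x ^ 1 + (147/2) * x ^ 3) * h5 + ((49/264) * x ^ 0 + (-5593/80) * x ^ 2 + (1617/20) * x ^ 4) * h6 + ((7/880) * x ^ 1 + (147/20) * x ^ 3) * h7 + ((5/132) * x ^ 0 + (7) * x ^ 2) * h8 + ((7/11) * x ^ 1) * h9 + ((20/33) * x ^ 0) * h10

lemma prod5_E (t : ℕ) (h2 : 2 ≤ t) (ht : t % 2 = 0) (x : ℝ) :
    p 5 x * p (t + 5) x =
      (5/693) * p t x + (115/792) * p (t + 2) x + (149/5544) * p (t + 4) x + (5/28) * p (t + 6) x + (5/77) * p (t + 8) x + (400/693) * p (t + 10) x := by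
  have h1 : x * p (t + 1) x = (20/21) * p (t + 2) x + (1/21) * p t x := recO t (by omega) (by omega) x
  have h2 : x * p (t + 2) x = (1/11) * p (t + 3) x + (10/11) * p (t + 1) x := recE (t + 1) (by omega) (by omega) x
  have h3 : x * p (t + 3) x = (20/21) * p (t + 4) x + (1/21) * p (t + 2) x := recO (t + 2) (by omega) (by omega) x
  have h4 : x * p (t + 4) x = (1/11) * p (t + 5) x + (10/11) * p (t + 3) x := recE (t + 3) (by omega) (by omega) x
  have h5 : x * p (t + 5) x = (20/21) * p (t + 6) x + (1/21) * p (t + 4) x := recO (t + 4) (by omega) (by omega) x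
  have h6 : x * p (t + 6) x = (1/11) * p (t + 7) x + (10/11) * p (t + 5) x := recE (t + 5) (by omega) (by omega) x
  have h7 : x * p (t + 7) x = (20/21) * p (t + 8) x + (1/21) * p (t + 6) x := recO (t + 6) (by omega) (by omega) x
  have h8 : x * p (t + 8) x = (1/11) * p (t + 9) x + (10/11) * p (t + 7) x := recE (t + 7) (by omega) (by omega) x
  have h9 : x * p (t + 9) x = (20/21) * p (t + 10) x + (1/21) * p (t + 8) x := recO (t + 8) (by omega) (by omega) x
  have e := p5_eq x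
  linear_combination p (t + 5) x * e + ((5/33) * x ^ 0) * h1 + ((1/6) * x ^ 1) * h2 + ((5/264) * x ^ 0 + (7/2) * x ^ 2) * h3 + ((1/240) * x ^ 1 + (77/20) * x ^ 3) * h4 + ((49/264) * x ^ 0 + (-5593/80) * x ^ 2 + (1617/20) * x ^ 4) * h5 + ((-265/4) * x ^ 1 + (77) * x ^ 3) * h6 + ((5/132) * x ^ 0 + (7) * x ^ 2) * h7 + ((20/3) * x ^ 1) * h8 + ((20/33) * x ^ 0) * h9

lemma prod5_O (t : ℕ) (h2 : 2 ≤ t) (ht : t % 2 = 1) (x : ℝ) :
    p 5 x * p (t + 5) x =
      (50/363) * p t x + (15/484) * p (t + 2) x + (15/88) * p (t + 4) x + (149/2904) * p (t + 6) x + (805/1452) * p (t + 8) x + (20/363) * p (t + 10) x := by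
  have h1 : x * p (t + 1) x = (1/11) * p (t + 2) x + (10/11) * p t x := recE t (by omega) (by omega) x
  have h2 : x * p (t + 2) x = (20/21) * p (t + 3) x + (1/21) * p (t + 1) x := recO (t + 1) (by omega) (by omega) x
  have h3 : x * p (t + 3) x = (1/11) * p (t + 4) x + (10/11) * p (t + 2) x := recE (t + 2) (by omega) (by omega) x
  have h4 : x * p (t + 4) x = (20/21) * p (t + 5) x + (1/21) * p (t + 3) x := recO (t + 3) (by omega) (by omega) x
  have h5 : x * p (t + 5) x = (1/11) * p (t + 6) x + (10/11) * p (t + 4) x := recE (t + 4) (by omega) (by omega) x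
  have h6 : x * p (t + 6) x = (20/21) * p (t + 7) x + (1/21) * p (t + 5) x := recO (t + 5) (by omega) (by omega) x
  have h7 : x * p (t + 7) x = (1/11) * p (t + 8) x + (10/11) * p (t + 6) x := recE (t + 6) (by omega) (by omega) x
  have h8 : x * p (t + 8) x = (20/21) * p (t + 9) x + (1/21) * p (t + 7) x := recO (t + 7) (by omega) (by omega) x
  have h9 : x * p (t + 9) x = (1/11) * p (t + 10) x + (10/11) * p (t + 8) x := recE (t + 8) (by omega) (by omega) x
  have e := p5_eq x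
  linear_combination p (t + 5) x * e + ((5/33) * x ^ 0) * h1 + ((35/11) * x ^ 1) * h2 + ((5/264) * x ^ 0 + (7/2) * x ^ 2) * h3 + ((-5565/88) * x ^ 1 + (147/2) * x ^ 3) * h4 + ((49/264) * x ^ 0 + (-5593/80) * x ^ 2 + (1617/20) * x ^ 4) * h5 + ((7/880) * x ^ 1 + (147/20) * x ^ 3) * h6 + ((5/132) * x ^ 0 + (7) * x ^ 2) * h7 + ((7/11) * x ^ 1) * h8 + ((20/33) * x ^ 0) * h9

end Pool.Agent.Work.MP_5c86b6_an
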