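import Pool.Agent.Work.MP_5c86b6_an.Basic

/-!
Nonnegative linearization for the sequence `P`.
-/

set_option autoImplicit false

open Polynomial

namespace Pool.Agent.Work.MP_5c86b6_an

/-- `f` is a nonnegative combination of the `p k`, `lo ≤ k ≤ hi`. -/
def Cone (lo hi : ℕ) (f : ℝ → ℝ) : Prop :=
  ∃ g : ℕ → ℝ, (∀ k, 0 ≤ g k) ∧ ∀ x, f x = ∑ k ∈ Finset.Icc lo hi, g k * p k x

lemma Cone.congr {lo hi : ℕ} {f f' : ℝ → ℝ} (h : Cone lo hi f) (e : ∀ x, f' x = f x) :
    Cone lo hi f' := by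
  obtain ⟨g, hg, hf⟩ := h
  exact ⟨g, hg, fun x => (e x).trans (hf x)⟩

lemma Cone.add {lo hi : ℕ} {f f' : ℝ → ℝ} (h : Cone lo hi f) (h' : Cone lo hi f') :
    Cone lo hi (fun x => f x + f' x) := by
  obtain ⟨g, hg, hf⟩ := h
  obtain ⟨g', hg', hf'⟩ := h'
  refine ⟨fun k => g k + g' k, fun k => add_nonneg (hg k) (hg' k), fun x => ?_⟩
  simp only [hf, hf', add_mul, Finset.sum_add_distrib]

lemma Cone.smul {lo hi : ℕ} {f : ℝ → ℝ} (h : Cone lo hi f) {r : ℝ} (hr : 0 ≤ r) :
    Cone lo hi (fun x => r * f x) := by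
  obtain ⟨g, hg, hf⟩ := h
  refine ⟨fun k => r * g k, fun k => mul_nonneg hr (hg k), fun x => ?_⟩
  simp only [hf, Finset.mul_sum, mul_assoc]

lemma Cone.mono {lo hi lo' hi' : ℕ} {f : ℝ → ℝ} (h : Cone lo hi f) (h1 : lo' ≤ lo)
    (h2 : hi ≤ hi') : Cone lo' hi' f := by
  obtain ⟨g, hg, hf⟩ := h
  refine ⟨fun k => if k ∈ Finset.Icc lo hi then g k else 0, fun k => ?_, fun x => ?_⟩
  · dsimp only; split_ifs; exacts [hg k, le_rfl]
  · rw [hf]
    simp only [ite_mul, zero_mul]
    rw [Finset.sum_ite_mem, Finset.inter_eq_right.2 (Finset.Icc_subset_Icc h1 h2)]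

lemma Cone.single {lo hi : ℕ} (k : ℕ) (h1 : lo ≤ k) (h2 : k ≤ hi) {r : ℝ} (hr : 0 ≤ r) :
    Cone lo hi (fun x => r * p k x) := by
  refine Cone.mono (lo := k) (hi := k) ⟨fun _ => r, fun _ => hr, fun x => by simp⟩ h1 h2

lemma Cone.comb3 (t : ℕ) {r0 r1 r2 : ℝ} (h0 : 0 ≤ r0) (h1 : 0 ≤ r1) (h2 : 0 ≤ r2) :
    Cone t (t + 4) (fun x => r0 * p t x + r1 * p (t + 2) x + r2 * p (t + 4) x) :=
  ((Cone.single t (by omega) (by omega) h0).add (Cone.single (t + 2) (by omega) (by omega) h1)).add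
    (Cone.single (t + 4) (by omega) (by omega) h2)

lemma Cone.comb4 (t : ℕ) {r0 r1 r2 r3 : ℝ} (h0 : 0 ≤ r0) (h1 : 0 ≤ r1) (h2 : 0 ≤ r2)
    (h3 : 0 ≤ r3) : Cone t (t + 6) (fun x => r0 * p t x + r1 * p (t + 2) x + r2 * p (t + 4) x
      + r3 * p (t + 6) x) :=
  ((Cone.comb3 t h0 h1 h2).mono le_rfl (by omega)).add
    (Cone.single (t + 6) (by omega) (by omega) h3)

lemma Cone.comb5 (t : ℕ) {r0 r1 r2 r3 r4 : ℝ} (h0 : 0 ≤ r0) (h1 : 0 ≤ r1) (h2 : 0 ≤ r2)
    (h3 : 0 ≤ r3) (h4 : 0 ≤ r4) : Cone t (t + 8) (fun x => r0 * p t x + r1 * p (t + 2) x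
      + r2 * p (t + 4) x + r3 * p (t + 6) x + r4 * p (t + 8) x) :=
  ((Cone.comb4 t h0 h1 h2 h3).mono le_rfl (by omega)).add
    (Cone.single (t + 8) (by omega) (by omega) h4)

lemma Cone.comb6 (t : ℕ) {r0 r1 r2 r3 r4 r5 : ℝ} (h0 : 0 ≤ r0) (h1 : 0 ≤ r1) (h2 : 0 ≤ r2)
    (h3 : 0 ≤ r3) (h4 : 0 ≤ r4) (h5 : 0 ≤ r5) : Cone t (t + 10) (fun x => r0 * p t x
      + r1 * p (t + 2) x + r2 * p (t + 4) x + r3 * p (t + 6) x + r4 * p (t + 8) x
      + r5 * p (t + 10) x) :=
  ((Cone.comb5 t h0 h1 h2 h3 h4).mono le_rfl (by omega)).add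
    (Cone.single (t + 10) (by omega) (by omega) h5)

lemma cases4 (t : ℕ) : t = 0 ∨ t = 1 ∨ (2 ≤ t ∧ t % 2 = 0) ∨ (2 ≤ t ∧ t % 2 = 1) := by omega

lemma cone0 (t : ℕ) : Cone t (t + 2 * 0) (fun x => p 0 x * p (t + 0) x) :=
  (Cone.single t le_rfl le_rfl zero_le_one).congr (fun x => by rw [p0_eq, add_zero])

lemma cone1 (t : ℕ) : Cone t (t + 2 * 1) (fun x => p 1 x * p (t + 1) x) :=
  ((Cone.single (t + 2) (by omega) (by omega) (a_pos (t + 1)).le).add
    (Cone.single t (by omega) (by omega) (c_nonneg (t + 1)))).congr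
    (fun x => by rw [p1_eq, rec_gen])

lemma cone2 (t : ℕ) : Cone t (t + 2 * 2) (fun x => p 2 x * p (t + 2) x) := by
  rcases cases4 t with rfl | rfl | ⟨h, h'⟩ | ⟨h, h'⟩
  · exact (Cone.comb3 0 (by norm_num) (by norm_num) (by norm_num)).congr prod2_0
  · exact (Cone.comb3 1 (by norm_num) (by norm_num) (by norm_num)).congr prod2_1
  · exact (Cone.comb3 t (by norm_num) (by norm_num) (by norm_num)).congr (prod2_E t h h')
  · exact (Cone.comb3 t (by norm_num) (by norm_num) (by norm_num)).congr (prod2_O t h h')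

lemma cone3 (t : ℕ) : Cone t (t + 2 * 3) (fun x => p 3 x * p (t + 3) x) := by
  rcases cases4 t with rfl | rfl | ⟨h, h'⟩ | ⟨h, h'⟩
  · exact (Cone.comb4 0 (by norm_num) (by norm_num) (by norm_num) (by norm_num)).congr prod3_0
  · exact (Cone.comb4 1 (by norm_num) (by norm_num) (by norm_num) (by norm_num)).congr prod3_1
  · exact (Cone.comb4 t (by norm_num) (by norm_num) (by norm_num) (by norm_num)).congr
      (prod3_E t h h')
  · exact (Cone.comb4 t (by norm_num) (by norm_num) (by norm_num) (by norm_num)).congr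
      (prod3_O t h h')

/-- The telescoping differences. -/
noncomputable def E (m t : ℕ) (x : ℝ) : ℝ :=
  p (m + 2) x * p (t + m + 2) x - p m x * p (t + m + 4) x

lemma E_step (m t : ℕ) (hm : 2 ≤ m) (x : ℝ) : E (m + 2) t x = 1 / 2 * E m t x := by
  have h1 : x ^ 2 * p (m + 2) x =
      20 / 231 * p (m + 4) x + 201 / 231 * p (m + 2) x + 10 / 231 * p m x := rec_two m hm x
  have h2 : x ^ 2 * p (t + m + 4) x = 20 / 231 * p (t + m + 6) x + 201 / 231 * p (t + m + 4) x
      + 10 / 231 * p (t + m + 2) x := rec_two (t + m + 2) (by omega) x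
  have e1 : t + (m + 2) + 2 = t + m + 4 := by omega
  have e2 : t + (m + 2) + 4 = t + m + 6 := by omega
  have e3 : m + 2 + 2 = m + 4 := by omega
  simp only [E, e1, e2, e3]
  linear_combination (231 / 20 * p (m + 2) x) * h2 - (231 / 20 * p (t + m + 4) x) * h1

lemma E_iter (m t : ℕ) (hm : 2 ≤ m) (s : ℕ) (x : ℝ) :
    E (m + 2 * s) t x = (1 / 2) ^ s * E m t x := by
  induction s with
  | zero => simp
  | succ s ih =>
    have : m + 2 * (s + 1) = m + 2 * s + 2 := by omega
    rw [this, E_step _ _ (by omega), ih, pow_succ]; ring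

lemma prod_step (m t s : ℕ) (hm : 2 ≤ m) (x : ℝ) :
    p (m + 2 * (s + 1) + 2) x * p (t + (m + 2 * (s + 1) + 2)) x =
      (1 / 2) ^ (s + 1) * E m t x + p (m + 2 * s + 2) x * p (t + 4 + (m + 2 * s + 2)) x := by
  rw [← E_iter m t hm, E]
  have e1 : t + (m + 2 * (s + 1)) + 2 = t + (m + 2 * (s + 1) + 2) := by omega
  have e2 : t + (m + 2 * (s + 1)) + 4 = t + 4 + (m + 2 * s + 2) := by omega
  have e3 : m + 2 * (s + 1) = m + 2 * s + 2 := by omega
  rw [e1, e2]
  nth_rewrite 5 [e3]
  ring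

/-- The induction. -/
lemma cone_ind (m : ℕ) (hm : 2 ≤ m) (T : ℕ → ℝ → ℝ)
    (base : ∀ t, 2 ≤ t → Cone t (t + 2 * (m + 2))
      (fun x => p (m + 2) x * p (t + (m + 2)) x - T t x))
    (ind : ∀ t, 2 ≤ t → Cone t (t + 2 * (m + 2)) (fun x => E m t x - T t x + 2 * T (t + 4) x))
    (base' : ∀ t, Cone t (t + 2 * (m + 2)) (fun x => p (m + 2) x * p (t + (m + 2)) x))
    (ind' : ∀ t, Cone t (t + 2 * (m + 2)) (fun x => E m t x + 2 * T (t + 4) x)) (s t : ℕ) :
    Cone t (t + 2 * (m + 2 * s + 2))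
      (fun x => p (m + 2 * s + 2) x * p (t + (m + 2 * s + 2)) x) := by
  have main : ∀ s t, 2 ≤ t → Cone t (t + 2 * (m + 2 * s + 2))
      (fun x => p (m + 2 * s + 2) x * p (t + (m + 2 * s + 2)) x - (1 / 2) ^ s * T t x) := by
    intro s
    induction s with
    | zero => intro t ht; simpa using base t ht
    | succ s ih =>
      intro t ht
      refine ((((ind t ht).smul (r := (1 / 2) ^ (s + 1)) (by positivity)).mono le_rfl
        (by omega)).add ((ih (t + 4) (by omega)).mono (by omega) (by omega))).congr (fun x => ?_)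
      rw [prod_step m t s hm, pow_succ]; ring
  rcases s with _ | s
  · simpa using base' t
  · refine ((((ind' t).smul (r := (1 / 2) ^ (s + 1)) (by positivity)).mono le_rfl
      (by omega)).add ((main s (t + 4) (by omega)).mono (by omega) (by omega))).congr (fun x => ?_)
    rw [prod_step m t s hm, pow_succ]; ring

lemma prod2_gen (t : ℕ) (h : 2 ≤ t) (x : ℝ) : p 2 x * p (t + 2) x =
    (5/66) * p t x + (17/22) * p (t + 2) x + (5/33) * p (t + 4) x := by
  rcases Nat.mod_two_eq_zero_or_one t with h' | h'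
  exacts [prod2_E t h h' x, prod2_O t h h' x]

lemma prod4_gen (t : ℕ) (h : 2 ≤ t) (x : ℝ) : p 4 x * p (t + 4) x =
    (5/363) * p t x + (805/2904) * p (t + 2) x + (289/2904) * p (t + 4) x
      + (805/1452) * p (t + 6) x + (20/363) * p (t + 8) x := by
  rcases Nat.mod_two_eq_zero_or_one t with h' | h'
  exacts [prod4_E t h h' x, prod4_O t h h' x]

lemma E2_eq (t : ℕ) (x : ℝ) : E 2 t x = p 4 x * p (t + 4) x -
    ((5/66) * p (t + 4) x + (17/22) * p (t + 6) x + (5/33) * p (t + 8) x) := by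
  have h : p 2 x * p (t + 6) x = (5/66) * p (t + 4) x + (17/22) * p (t + 6) x
    + (5/33) * p (t + 8) x := prod2_gen (t + 4) (by omega) x
  rw [← h]; rfl

/-- Lower bound used for even first index. -/
noncomputable def T4 (t : ℕ) (x : ℝ) : ℝ :=
  5 / 363 * p t x + 1 / 4 * p (t + 2) x + 1 / 20 * p (t + 4) x

lemma T4_shift (t : ℕ) (x : ℝ) : T4 (t + 4) x =
    5 / 363 * p (t + 4) x + 1 / 4 * p (t + 6) x + 1 / 20 * p (t + 8) x := rfl

lemma cone_even (s t : ℕ) : Cone t (t + 2 * (2 + 2 * s + 2))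
    (fun x => p (2 + 2 * s + 2) x * p (t + (2 + 2 * s + 2)) x) := by
  refine cone_ind 2 le_rfl T4 (fun t ht => ?_) (fun t ht => ?_) (fun t => ?_) (fun t => ?_) s t
  · refine (Cone.comb5 t (r0 := 0) (r1 := 805/2904 - 1/4) (r2 := 289/2904 - 1/20)
      (r3 := 805/1452) (r4 := 20/363) (by norm_num) (by norm_num) (by norm_num) (by norm_num)
      (by norm_num)).congr (fun x => ?_)
    have h := prod4_gen t ht x
    norm_num only [T4]
    linear_combination h
  · refine (Cone.comb5 t (r0 := 0) (r1 := 805/2904 - 1/4)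
      (r2 := 289/2904 - 5/66 - 1/20 + 10/363)
      (r3 := 805/1452 - 17/22 + 1/2) (r4 := 20/363 - 5/33 + 1/10) (by norm_num) (by norm_num)
      (by norm_num) (by norm_num) (by norm_num)).congr (fun x => ?_)
    have h := prod4_gen t ht x
    rw [E2_eq, T4_shift, T4]
    linear_combination h
  · rcases cases4 t with rfl | rfl | ⟨h, -⟩ | ⟨h, -⟩
    · exact (Cone.comb5 0 (by norm_num) (by norm_num) (by norm_num) (by norm_num)
        (by norm_num)).congr prod4_0
    · exact (Cone.comb5 1 (by norm_num) (by norm_num) (by norm_num) (by norm_num)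
        (by norm_num)).congr prod4_1
    · exact (Cone.comb5 t (by norm_num) (by norm_num) (by norm_num) (by norm_num)
        (by norm_num)).congr (prod4_gen t h)
    · exact (Cone.comb5 t (by norm_num) (by norm_num) (by norm_num) (by norm_num)
        (by norm_num)).congr (prod4_gen t h)
  · have gen : ∀ t, 2 ≤ t → Cone t (t + 2 * (2 + 2)) (fun x => E 2 t x + 2 * T4 (t + 4) x) := by
      intro t ht
      refine (Cone.comb5 t (r0 := 5/363) (r1 := 805/2904) (r2 := 289/2904 - 5/66 + 10/363)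
        (r3 := 805/1452 - 17/22 + 1/2) (r4 := 20/363 - 5/33 + 1/10) (by norm_num) (by norm_num)
        (by norm_num) (by norm_num) (by norm_num)).congr (fun x => ?_)
      have h := prod4_gen t ht x
      rw [E2_eq, T4_shift]
      linear_combination h
    rcases cases4 t with rfl | rfl | ⟨h, -⟩ | ⟨h, -⟩
    · refine (Cone.comb5 0 (r0 := 9/88) (r1 := 17/121) (r2 := 13/88 - 5/66 + 10/363)
        (r3 := 805/1452 - 17/22 + 1/2) (r4 := 20/363 - 5/33 + 1/10) (by norm_num) (by norm_num)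
        (by norm_num) (by norm_num) (by norm_num)).congr (fun x => ?_)
      have h := prod4_0 x
      rw [E2_eq, T4_shift]
      norm_num only
      linear_combination h
    · refine (Cone.comb5 1 (r0 := 1/88) (r1 := 203/726) (r2 := 289/2904 - 5/66 + 10/363)
        (r3 := 805/1452 - 17/22 + 1/2) (r4 := 20/363 - 5/33 + 1/10) (by norm_num) (by norm_num)
        (by norm_num) (by norm_num) (by norm_num)).congr (fun x => ?_)
      have h := prod4_1 x
      rw [E2_eq, T4_shift]
      norm_num only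
      linear_combination h
    · exact gen t h
    · exact gen t h

lemma E3_E (t : ℕ) (ht : t % 2 = 0) (x : ℝ) : E 3 t x = p 5 x * p (t + 5) x -
    ((10/693) * p (t + 4) x + (29/99) * p (t + 6) x + (80/693) * p (t + 8) x
      + (400/693) * p (t + 10) x) := by
  have h : p 3 x * p (t + 7) x = (10/693) * p (t + 4) x + (29/99) * p (t + 6) x
    + (80/693) * p (t + 8) x + (400/693) * p (t + 10) x :=
    prod3_E (t + 4) (by omega) (by omega) x
  rw [← h]; rfl

lemma E3_O (t : ℕ) (ht : t % 2 = 1) (x : ℝ) : E 3 t x = p 5 x * p (t + 5) x -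
    ((100/363) * p (t + 4) x + (40/363) * p (t + 6) x + (203/363) * p (t + 8) x
      + (20/363) * p (t + 10) x) := by
  have h : p 3 x * p (t + 7) x = (100/363) * p (t + 4) x + (40/363) * p (t + 6) x
    + (203/363) * p (t + 8) x + (20/363) * p (t + 10) x :=
    prod3_O (t + 4) (by omega) (by omega) x
  rw [← h]; rfl

/-- Lower bound used for odd first index. -/
noncomputable def T5 (t : ℕ) (x : ℝ) : ℝ :=
  if t % 2 = 0 then 5 / 693 * p t x + 1 / 8 * p (t + 2) x + 13 / 500 * p (t + 4) x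
  else 1 / 10 * p t x + 3 / 100 * p (t + 2) x + 1 / 100 * p (t + 4) x

lemma T5_E (t : ℕ) (ht : t % 2 = 0) (x : ℝ) :
    T5 t x = 5 / 693 * p t x + 1 / 8 * p (t + 2) x + 13 / 500 * p (t + 4) x := by
  rw [T5, if_pos ht]

lemma T5_O (t : ℕ) (ht : t % 2 = 1) (x : ℝ) :
    T5 t x = 1 / 10 * p t x + 3 / 100 * p (t + 2) x + 1 / 100 * p (t + 4) x := by
  rw [T5, if_neg (by omega)]

lemma T5_E' (t : ℕ) (ht : t % 2 = 0) (x : ℝ) :
    T5 (t + 4) x = 5 / 693 * p (t + 4) x + 1 / 8 * p (t + 6) x + 13 / 500 * p (t + 8) x :=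
  T5_E (t + 4) (by omega) x

lemma T5_O' (t : ℕ) (ht : t % 2 = 1) (x : ℝ) :
    T5 (t + 4) x = 1 / 10 * p (t + 4) x + 3 / 100 * p (t + 6) x + 1 / 100 * p (t + 8) x :=
  T5_O (t + 4) (by omega) x

lemma cone_odd (s t : ℕ) : Cone t (t + 2 * (3 + 2 * s + 2))
    (fun x => p (3 + 2 * s + 2) x * p (t + (3 + 2 * s + 2)) x) := by
  refine cone_ind 3 (by norm_num) T5 (fun t ht => ?_) (fun t ht => ?_) (fun t => ?_)
    (fun t => ?_) s t
  · rcases Nat.mod_two_eq_zero_or_one t with h' | h'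
    · refine (Cone.comb6 t (r0 := 0) (r1 := 115/792 - 1/8) (r2 := 149/5544 - 13/500)
        (r3 := 5/28) (r4 := 5/77) (r5 := 400/693) (by norm_num) (by norm_num) (by norm_num)
        (by norm_num) (by norm_num) (by norm_num)).congr (fun x => ?_)
      have h := prod5_E t ht h' x
      rw [T5_E t h']
      norm_num only
      linear_combination h
    · refine (Cone.comb6 t (r0 := 50/363 - 1/10) (r1 := 15/484 - 3/100) (r2 := 15/88 - 1/100)
        (r3 := 149/2904) (r4 := 805/1452) (r5 := 20/363) (by norm_num) (by norm_num) (by norm_num)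
        (by norm_num) (by norm_num) (by norm_num)).congr (fun x => ?_)
      have h := prod5_O t ht h' x
      rw [T5_O t h']
      norm_num only
      linear_combination h
  · rcases Nat.mod_two_eq_zero_or_one t with h' | h'
    · refine (Cone.comb6 t (r0 := 0) (r1 := 115/792 - 1/8) (r2 := 23/1848 - 13/500 + 10/693)
        (r3 := -317/2772 + 1/4) (r4 := -5/99 + 13/250) (r5 := 0) (by norm_num) (by norm_num)
        (by norm_num) (by norm_num) (by norm_num) (by norm_num)).congr (fun x => ?_)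
      have h := prod5_E t ht h' x
      rw [E3_E t h', T5_E t h', T5_E' t h']
      linear_combination h
    · refine (Cone.comb6 t (r0 := 50/363 - 1/10) (r1 := 15/484 - 3/100)
        (r2 := -305/2904 - 1/100 + 1/5) (r3 := -57/968 + 3/50) (r4 := -7/1452 + 1/50) (r5 := 0)
        (by norm_num) (by norm_num) (by norm_num) (by norm_num) (by norm_num)
        (by norm_num)).congr (fun x => ?_)
      have h := prod5_O t ht h' x
      rw [E3_O t h', T5_O t h', T5_O' t h']
      linear_combination h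
  · rcases cases4 t with rfl | rfl | ⟨h, h'⟩ | ⟨h, h'⟩
    · exact (Cone.comb6 0 (by norm_num) (by norm_num) (by norm_num) (by norm_num)
        (by norm_num) (by norm_num)).congr prod5_0
    · exact (Cone.comb6 1 (by norm_num) (by norm_num) (by norm_num) (by norm_num)
        (by norm_num) (by norm_num)).congr prod5_1
    · exact (Cone.comb6 t (by norm_num) (by norm_num) (by norm_num) (by norm_num)
        (by norm_num) (by norm_num)).congr (prod5_E t h h')
    · exact (Cone.comb6 t (by norm_num) (by norm_num) (by norm_num) (by norm_num)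
        (by norm_num) (by norm_num)).congr (prod5_O t h h')
  · rcases cases4 t with rfl | rfl | ⟨ht, h'⟩ | ⟨ht, h'⟩
    · refine (Cone.comb6 0 (r0 := 3/56) (r1 := 17/231) (r2 := 19/504 + 10/693)
        (r3 := -317/2772 + 1/4) (r4 := -5/99 + 13/250) (r5 := 0) (by norm_num) (by norm_num)
        (by norm_num) (by norm_num) (by norm_num) (by norm_num)).congr (fun x => ?_)
      have h := prod5_0 x
      rw [E3_E 0 rfl, T5_E' 0 rfl]
      norm_num only
      linear_combination h
    · refine (Cone.comb6 1 (r0 := 5/44) (r1 := 20/363)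
        (r2 := -305/2904 + 1/5) (r3 := -57/968 + 3/50) (r4 := -7/1452 + 1/50) (r5 := 0)
        (by norm_num) (by norm_num) (by norm_num) (by norm_num) (by norm_num)
        (by norm_num)).congr (fun x => ?_)
      have h := prod5_1 x
      rw [E3_O 1 rfl, T5_O' 1 rfl]
      norm_num only
      linear_combination h
    · refine (Cone.comb6 t (r0 := 5/693) (r1 := 115/792) (r2 := 23/1848 + 10/693)
        (r3 := -317/2772 + 1/4) (r4 := -5/99 + 13/250) (r5 := 0) (by norm_num) (by norm_num)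
        (by norm_num) (by norm_num) (by norm_num) (by norm_num)).congr (fun x => ?_)
      have h := prod5_E t ht h' x
      rw [E3_E t h', T5_E' t h']
      linear_combination h
    · refine (Cone.comb6 t (r0 := 50/363) (r1 := 15/484)
        (r2 := -305/2904 + 1/5) (r3 := -57/968 + 3/50) (r4 := -7/1452 + 1/50) (r5 := 0)
        (by norm_num) (by norm_num) (by norm_num) (by norm_num) (by norm_num)
        (by norm_num)).congr (fun x => ?_)
      have h := prod5_O t ht h' x
      rw [E3_O t h', T5_O' t h']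
      linear_combination h

lemma cone_all (m t : ℕ) : Cone t (t + 2 * m) (fun x => p m x * p (t + m) x) := by
  have : m = 0 ∨ m = 1 ∨ m = 2 ∨ m = 3 ∨ (∃ s, m = 2 + 2 * s + 2) ∨ (∃ s, m = 3 + 2 * s + 2) := by
    rcases Nat.lt_or_ge m 4 with h | h
    · omega
    · rcases Nat.mod_two_eq_zero_or_one m with h' | h'
      · exact Or.inr (Or.inr (Or.inr (Or.inr (Or.inl ⟨(m - 4) / 2, by omega⟩))))
      · exact Or.inr (Or.inr (Or.inr (Or.inr (Or.inr ⟨(m - 5) / 2, by omega⟩))))
  rcases this with rfl | rfl | rfl | rfl | ⟨s, rfl⟩ | ⟨s, rfl⟩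
  exacts [cone0 t, cone1 t, cone2 t, cone3 t, cone_even s t, cone_odd s t]

/-- Nonnegative linearization of products. -/
theorem linearization (m n : ℕ) : ∃ g : ℕ → ℝ, (∀ k, 0 ≤ g k) ∧
    P m * P n = ∑ k ∈ Finset.Icc (Nat.dist m n) (m + n), C (g k) * P k := by
  have h : Cone (Nat.dist m n) (m + n) (fun x => p m x * p n x) := by
    rcases le_total m n with h | h
    · obtain ⟨t, rfl⟩ := Nat.exists_eq_add_of_le' h
      exact (cone_all m t).mono (by unfold Nat.dist; omega) (by omega)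
    · obtain ⟨t, rfl⟩ := Nat.exists_eq_add_of_le' h
      exact ((cone_all n t).mono (by unfold Nat.dist; omega) (by omega)).congr
        (fun x => mul_comm _ _)
  obtain ⟨g, hg, hf⟩ := h
  refine ⟨g, hg, Polynomial.funext (fun x => ?_)⟩
  simpa [p, eval_finsetSum] using hf x

lemma recurrence (n : ℕ) (hn : 1 ≤ n) :
    X * P n = C (a n) * P (n + 1) + C (c n) * P (n - 1) := by
  obtain ⟨k, rfl⟩ := Nat.exists_eq_add_of_le' hn
  refine Polynomial.funext (fun x => ?_)
  simpa [p] using rec_gen k x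

end Pool.Agent.Work.MP_5c86b6_an
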